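import Mathlib

/-!
# Engel periods: common definitions (MP_da8eb3_al)
`EG.cm y z = z⁻¹ y⁻¹ z y`; `EG.Law G r n`: the law `[x,_r y] = [x,_{r+n} y]` holds in `G`;
`EG.DD G k`: `k` divides every period `n > 0` of such a law (so `k ∣ d(G)`).
-/

namespace EG

/-- the Engel map `z ↦ [z, y]` -/
def cm {G : Type*} [Group G] (y : G) : G → G := fun z => z⁻¹ * y⁻¹ * z * y

/-- the law `[x,_r y] = [x,_{r+n} y]` -/
def Law (G : Type*) [Group G] (r n : ℕ) : Prop :=
  ∀ x y : G, (cm y)^[r] x = (cm y)^[r + n] x

/-- `k` divides every period of an Engel law of `G`, i.e. `k ∣ d(G)` -/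
def DD (G : Type*) [Group G] (k : ℕ) : Prop :=
  ∀ r n : ℕ, 0 < n → Law G r n → k ∣ n

variable {G H : Type*} [Group G] [Group H]

theorem cm_apply (y z : G) : cm y z = z⁻¹ * y⁻¹ * z * y := rfl

theorem map_cm (f : G →* H) (y z : G) : f (cm y z) = cm (f y) (f z) := by
  simp [cm_apply]

theorem map_cm_iter (f : G →* H) (y : G) (r : ℕ) (z : G) :
    f ((cm y)^[r] z) = (cm (f y))^[r] (f z) := by
  induction r generalizing z with
  | zero => rfl
  | succ r ih => rw [Function.iterate_succ_apply, Function.iterate_succ_apply, ih, map_cm]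

theorem Law.of_injective {f : H →* G} (hf : Function.Injective f) {r n : ℕ} (h : Law G r n) :
    Law H r n := by
  intro x y
  apply hf
  rw [map_cm_iter, map_cm_iter]
  exact h _ _

theorem Law.of_surjective {f : G →* H} (hf : Function.Surjective f) {r n : ℕ} (h : Law G r n) :
    Law H r n := by
  intro x y
  obtain ⟨x, rfl⟩ := hf x
  obtain ⟨y, rfl⟩ := hf y
  rw [← map_cm_iter, ← map_cm_iter, h x y]

theorem DD.of_injective {k : ℕ} (h : DD H k) (f : H →* G) (hf : Function.Injective f) : DD G k :=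
  fun r n hn hl => h r n hn (hl.of_injective hf)

theorem DD.of_surjective {k : ℕ} (h : DD H k) (f : G →* H) (hf : Function.Surjective f) :
    DD G k :=
  fun r n hn hl => h r n hn (hl.of_surjective hf)

theorem DD.of_dvd {k l : ℕ} (h : DD G l) (hk : k ∣ l) : DD G k :=
  fun r n hn hl => hk.trans (h r n hn hl)

theorem Law.mono {r s n : ℕ} (h : Law G r n) (hrs : r ≤ s) : Law G s n := by
  intro x y
  obtain ⟨t, rfl⟩ := Nat.exists_eq_add_of_le hrs
  have h1 := h x y
  have e1 : (cm y)^[r + t] x = (cm y)^[t] ((cm y)^[r] x) := by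
    rw [add_comm, Function.iterate_add_apply]
  have e2 : (cm y)^[r + t + n] x = (cm y)^[t] ((cm y)^[r + n] x) := by
    rw [show r + t + n = t + (r + n) by ring, Function.iterate_add_apply]
  rw [e1, e2, h1]

/-- The basic way to bound periods from below: a family `X : S → G` (injective on the forward
invariant set `P`) on which `[·, y]` acts through `F : S → S`, all cycles of `F` in `P` having
length divisible by `k`. -/
theorem DD_of_family {S : Type*} {k : ℕ} (y : G) (X : S → G) (F : S → S) (P : S → Prop)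
    (hinj : ∀ s t, P s → P t → X s = X t → s = t)
    (hF : ∀ s, P s → P (F s) ∧ cm y (X s) = X (F s))
    (s₀ : S) (h₀ : P s₀)
    (hcyc : ∀ s, P s → ∀ n, 0 < n → F^[n] s = s → k ∣ n) : DD G k := by
  intro r n hn hl
  have hit : ∀ m s, P s → P (F^[m] s) ∧ (cm y)^[m] (X s) = X (F^[m] s) := by
    intro m
    induction m with
    | zero => intro s hs; exact ⟨hs, rfl⟩
    | succ m ih =>
      intro s hs
      rw [Function.iterate_succ_apply, Function.iterate_succ_apply, (hF s hs).2]
      exact ih _ (hF s hs).1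
  have h1 := hl (X s₀) y
  rw [(hit r s₀ h₀).2, (hit (r + n) s₀ h₀).2] at h1
  have h2 := hinj _ _ (hit r s₀ h₀).1 (hit (r + n) s₀ h₀).1 h1
  refine hcyc _ (hit r s₀ h₀).1 n hn ?_
  rw [← Function.iterate_add_apply, add_comm, ← h2]

end EG
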