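import Mathlib

/-!
# A linear algebra lemma for the characteristic 2 Engel cycles
-/

namespace EG.H99

open Module

/-- If `A^(N+1) v = 0`, `A^N v ≠ 0` in a space of dimension `N+1`, then `A^(N+1) = 0`. -/
theorem pow_eq_zero_of_cyclic {F W : Type*} [Field F] [AddCommGroup W] [Module F W]
    [FiniteDimensional F W] {N : ℕ} (hN : finrank F W = N + 1) (A : End F W) (v : W)
    (h0 : (A ^ N) v ≠ 0) (h1 : (A ^ (N + 1)) v = 0) : A ^ (N + 1) = 0 := by
  have key : ∀ k, k ≤ N + 1 → k ≤ finrank F (LinearMap.ker (A ^ k)) := by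
    intro k
    induction k with
    | zero => intro _; exact Nat.zero_le _
    | succ k ih =>
      intro hk
      have hlt : LinearMap.ker (A ^ k) < LinearMap.ker (A ^ (k + 1)) := by
        refine lt_of_le_of_ne ?_ ?_
        · intro x hx
          rw [LinearMap.mem_ker] at hx ⊢
          rw [pow_succ', Module.End.mul_apply, hx, map_zero]
        · intro heq
          have hmem : (A ^ (N - k)) v ∈ LinearMap.ker (A ^ (k + 1)) := by
            rw [LinearMap.mem_ker, ← Module.End.mul_apply, ← pow_add,
              show k + 1 + (N - k) = N + 1 by omega]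
            exact h1
          rw [← heq, LinearMap.mem_ker, ← Module.End.mul_apply, ← pow_add,
            show k + (N - k) = N by omega] at hmem
          exact h0 hmem
      have := Submodule.finrank_lt_finrank_of_lt hlt
      have := ih (by omega)
      omega
  have h2 := key (N + 1) le_rfl
  have h3 : LinearMap.ker (A ^ (N + 1)) = ⊤ := by
    apply Submodule.eq_top_of_finrank_eq
    have := Submodule.finrank_le (LinearMap.ker (A ^ (N + 1)))
    omega
  exact LinearMap.ker_eq_top.mp h3

/-- The contradiction: a singular `T` on a space of dimension `2^j+1` over `F₂` cannot satisfy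
`T^(2^j m) v = v + e`, `T e = e`, `e ≠ 0`. -/
theorem no_half_period {W : Type*} [AddCommGroup W] [Module (ZMod 2) W]
    [FiniteDimensional (ZMod 2) W] {j m : ℕ} (hm : 0 < m)
    (hN : finrank (ZMod 2) W = 2 ^ j + 1) (T : End (ZMod 2) W) (v e k : W)
    (hk : k ≠ 0) (hTk : T k = 0) (he : e ≠ 0) (hTe : T e = e)
    (hv : (T ^ (2 ^ j * m)) v = v + e) : False := by
  have hTe' : ∀ i : ℕ, (T ^ i) e = e := by
    intro i
    induction i with
    | zero => rfl
    | succ i ih => rw [pow_succ, Module.End.mul_apply, hTe, ih]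
  have : Nontrivial W := ⟨⟨e, 0, he⟩⟩
  have : CharP (End (ZMod 2) W) 2 := by
    have : Nontrivial (End (ZMod 2) W) := inferInstance
    exact charP_of_injective_algebraMap (algebraMap (ZMod 2) (End (ZMod 2) W)).injective 2
  have hA : (T ^ m - 1) ^ (2 ^ j) = T ^ (2 ^ j * m) - 1 := by
    have : Fact (Nat.Prime 2) := ⟨Nat.prime_two⟩
    rw [sub_pow_expChar_pow_of_commute 2 j (Commute.one_right (T ^ m)), one_pow, ← pow_mul,
      mul_comm m]
  have hAv : ((T ^ m - 1 : End (ZMod 2) W) ^ (2 ^ j)) v = e := by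
    rw [hA, LinearMap.sub_apply, hv, Module.End.one_apply, add_sub_cancel_left]
  have hAe : (T ^ m - 1 : End (ZMod 2) W) e = 0 := by
    rw [LinearMap.sub_apply, hTe', Module.End.one_apply, sub_self]
  have h0 := pow_eq_zero_of_cyclic hN (T ^ m - 1) v (by rw [hAv]; exact he)
    (by rw [pow_succ', Module.End.mul_apply, hAv, hAe])
  have hu : IsUnit (T ^ m) := by
    have h1 : IsNilpotent (T ^ m - 1) := ⟨_, h0⟩
    have h2 := h1.isUnit_one_add
    rwa [add_sub_cancel] at h2
  obtain ⟨g, hg⟩ := hu
  have h3 : (T ^ m) k = 0 := by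
    obtain ⟨i, rfl⟩ := Nat.exists_eq_succ_of_ne_zero hm.ne'
    rw [Nat.succ_eq_add_one, pow_succ, Module.End.mul_apply, hTk, map_zero]
  apply hk
  have h4 : (((g⁻¹ : (End (ZMod 2) W)ˣ) : End (ZMod 2) W) * (g : End (ZMod 2) W)) k = 0 := by
    rw [Module.End.mul_apply, hg, h3, map_zero]
  rwa [Units.inv_mul, Module.End.one_apply] at h4

end EG.H99
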