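import Mathlib
import Pool.Agent.Helper99_EG.Defs
import Pool.Agent.Helper99_EG.LinAlg

set_option linter.unusedSectionVars false

/-!
# Engel cycles in `AΓL₁(2^(2^j))`
-/

namespace EG.H99

open Module

section dyn

variable {K : Type*} [Field K] [CharP K 2] [Finite K]

/-- square root -/
noncomputable def sr (v : K) : K := (frobeniusEquiv K 2).symm v

theorem sr_sq (v : K) : (sr v) ^ 2 = v := by
  have := (frobeniusEquiv K 2).apply_symm_apply v
  rwa [frobeniusEquiv_apply, frobenius_def] at this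

theorem sq_inj {a b : K} (h : a ^ 2 = b ^ 2) : a = b := by
  have := (frobeniusEquiv K 2).injective (a₁ := a) (a₂ := b)
  apply this
  rw [frobeniusEquiv_apply, frobeniusEquiv_apply, frobenius_def, frobenius_def, h]

/-- the Engel map on pairs -/
noncomputable def Fm (u : K) (p : K × K) : K × K :=
  (sr p.1⁻¹, p.2 + sr p.1⁻¹ * (p.2 + sr p.2 + u))

/-- conjugation by `y⁻¹` on pairs -/
def Dm (u : K) (p : K × K) : K × K := (p.1 ^ 2, p.2 ^ 2 + u ^ 2)

theorem Dm_inj (u : K) : Function.Injective (Dm u) := by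
  intro p q h
  have h1 := congrArg Prod.fst h
  have h2 := congrArg Prod.snd h
  simp only [Dm] at h1 h2
  exact Prod.ext (sq_inj h1) (sq_inj (add_right_cancel h2))

theorem Fm_Dm (u : K) (p : K × K) : Fm u (Dm u p) = Dm u (Fm u p) := by
  apply Prod.ext
  · apply sq_inj
    simp only [Fm, Dm]
    rw [sr_sq, ← pow_mul, pow_mul, sr_sq, inv_pow]
  · apply sq_inj
    simp only [Fm, Dm]
    have e1 : sr ((p.1 ^ 2)⁻¹) = p.1⁻¹ := by
      apply sq_inj; rw [sr_sq, inv_pow]
    have e2 : (sr (p.2 ^ 2 + u ^ 2)) = p.2 + u := by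
      apply sq_inj; rw [sr_sq, add_pow_char]
    have e3 : (sr p.1⁻¹) ^ 2 = p.1⁻¹ := sr_sq _
    have e4 : (sr p.2) ^ 2 = p.2 := sr_sq _
    rw [e1, e2]
    have h2 : (2 : K) = 0 := CharTwo.two_eq_zero
    have e5 : ((p.2 + sr p.1⁻¹ * (p.2 + sr p.2 + u)) ^ 2 + u ^ 2) =
        p.2 ^ 2 + p.1⁻¹ * (p.2 ^ 2 + p.2 + u ^ 2) + u ^ 2 := by
      rw [add_pow_char, mul_pow, add_pow_char, add_pow_char, e3, e4]
    rw [e5]
    congr 1
    linear_combination (p.1⁻¹ * u) * h2

/-- the elements with norm one to the subfield of index two, and different from one -/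
def Pm (h : ℕ) (p : K × K) : Prop := p.1 * p.1 ^ (2 ^ h) = 1 ∧ p.1 ≠ 1

theorem Pm.ne_zero {h : ℕ} {p : K × K} (hp : Pm h p) : p.1 ≠ 0 := by
  intro h0
  have := hp.1
  rw [h0, zero_mul] at this
  exact zero_ne_one this

theorem sr_inv (a : K) : sr a⁻¹ = (sr a)⁻¹ := by
  apply sq_inj; rw [sr_sq, inv_pow, sr_sq]

theorem Fm_Pm {h : ℕ} {u : K} {p : K × K} (hp : Pm h p) : Pm h (Fm u p) := by
  have h0 := hp.ne_zero
  refine ⟨?_, ?_⟩
  · apply sq_inj
    simp only [Fm]
    rw [mul_pow, ← pow_mul, mul_comm (2 ^ h) 2, pow_mul, sr_sq, one_pow, inv_pow, ← mul_inv, hp.1,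
      inv_one]
  · intro h1
    simp only [Fm] at h1
    apply hp.2
    have := congrArg (· ^ 2) h1
    simp only [sr_sq, one_pow] at this
    rwa [inv_eq_one] at this

/-- partial traces -/
def cs (u : K) (i : ℕ) : K := ∑ l ∈ Finset.range i, u ^ (2 ^ (l + 1))

theorem Dm_iter (u : K) (i : ℕ) (p : K × K) :
    (Dm u)^[i] p = (p.1 ^ (2 ^ i), p.2 ^ (2 ^ i) + cs u i) := by
  induction i generalizing p with
  | zero => simp [cs]
  | succ i ih =>
    rw [Function.iterate_succ_apply, ih]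
    apply Prod.ext
    · simp only [Dm]
      rw [← pow_mul, pow_succ']
    · simp only [Dm]
      rw [add_pow_char_pow, ← pow_mul, ← pow_mul, pow_succ', cs, cs, Finset.sum_range_succ]
      rw [pow_succ']
      ring

/-- the period of `a` under squaring is the full `2^j` -/
theorem full_orbit {j : ℕ} (hj : 1 ≤ j) {a : K} (ha : a * a ^ (2 ^ (2 ^ (j - 1))) = 1)
    (ha1 : a ≠ 1) {i : ℕ} (hi : a ^ (2 ^ i) = a) : 2 ^ j ∣ i := by
  have hit : ∀ k : ℕ, (fun x : K => x ^ 2)^[k] a = a ^ (2 ^ k) := by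
    intro k
    induction k with
    | zero => simp
    | succ k ih => rw [Function.iterate_succ_apply', ih, ← pow_mul, pow_succ]
  have ha0 : a ≠ 0 := by
    rintro rfl
    rw [zero_mul] at ha
    exact zero_ne_one ha
  have h1 : Function.minimalPeriod (fun x : K => x ^ 2) a ∣ 2 ^ j := by
    apply Function.IsPeriodicPt.minimalPeriod_dvd
    rw [Function.IsPeriodicPt, Function.IsFixedPt, hit]
    have e1 : a ^ (2 ^ (2 ^ (j - 1))) = a⁻¹ := eq_inv_of_mul_eq_one_right ha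
    have e2 : 2 ^ j = 2 ^ (j - 1) + 2 ^ (j - 1) := by
      obtain ⟨k, rfl⟩ := Nat.exists_eq_add_of_le hj
      rw [show 1 + k - 1 = k by omega, pow_add]
      ring
    rw [e2, pow_add, pow_mul, e1, inv_pow, e1, inv_inv]
  have h2 : ¬ Function.minimalPeriod (fun x : K => x ^ 2) a ∣ 2 ^ (j - 1) := by
    intro h
    have h3 := (Function.isPeriodicPt_minimalPeriod (fun x : K => x ^ 2) a).trans_dvd h
    rw [Function.IsPeriodicPt, Function.IsFixedPt, hit] at h3
    rw [h3, ← pow_two] at ha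
    apply ha1
    apply sq_inj
    rw [ha, one_pow]
  have h3 : Function.minimalPeriod (fun x : K => x ^ 2) a = 2 ^ j := by
    obtain ⟨k, hk, hk2⟩ := (Nat.dvd_prime_pow Nat.prime_two).mp h1
    rw [hk2] at h2 ⊢
    rcases Nat.lt_or_ge k j with hlt | hge
    · exact absurd (pow_dvd_pow 2 (by omega)) h2
    · rw [le_antisymm hk hge]
  rw [← h3]
  apply Function.IsPeriodicPt.minimalPeriod_dvd
  rw [Function.IsPeriodicPt, Function.IsFixedPt, hit, hi]

/-- the affine map on the second component -/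
def Tm (u : K) (h : ℕ) (a t : K) : K :=
  (t ^ 2 + a⁻¹ * (t ^ 2 + t + u ^ 2)) ^ (2 ^ h) + cs u (1 + h)

theorem Fm_snd_sq (u : K) (p : K × K) :
    (Fm u p).2 ^ 2 = p.2 ^ 2 + p.1⁻¹ * (p.2 ^ 2 + p.2 + u ^ 2) := by
  simp only [Fm]
  rw [add_pow_char, mul_pow, add_pow_char, add_pow_char, sr_sq, sr_sq]

theorem Em_eq {u : K} {h : ℕ} {p : K × K} (hp : Pm h p) :
    (Dm u)^[1 + h] (Fm u p) = (p.1, Tm u h p.1 p.2) := by
  rw [Dm_iter]
  apply Prod.ext
  · simp only
    rw [pow_add, pow_one, pow_mul]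
    have : (Fm u p).1 ^ 2 = p.1⁻¹ := by simp only [Fm]; rw [sr_sq]
    rw [this, inv_pow]
    exact (eq_inv_of_mul_eq_one_left hp.1).symm
  · simp only [Tm]
    rw [pow_add 2 1 h, pow_one, pow_mul, Fm_snd_sq]

theorem Em_iter {u : K} {h : ℕ} {p : K × K} (hp : Pm h p) (n : ℕ) :
    (Dm u)^[(1 + h) * n] ((Fm u)^[n] p) = (p.1, (Tm u h p.1)^[n] p.2) := by
  have hcomm : Function.Commute (Fm u) (Dm u) := fun q => Fm_Dm u q
  induction n generalizing p with
  | zero => rfl
  | succ n ih =>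
    have h1 : (Dm u)^[(1 + h) * (n + 1)] ((Fm u)^[n + 1] p) =
        (Dm u)^[(1 + h) * n] ((Fm u)^[n] ((Dm u)^[1 + h] (Fm u p))) := by
      rw [show (1 + h) * (n + 1) = (1 + h) * n + (1 + h) by ring, Function.iterate_add_apply,
        Function.iterate_succ_apply, (hcomm.iterate_iterate n (1 + h)).eq]
    rw [h1, Em_eq hp]
    have hp' : Pm h (p.1, Tm u h p.1 p.2) := hp
    rw [ih hp', Function.iterate_succ_apply]

end dyn

section main

variable {K : Type*} [Field K] [CharP K 2] [Finite K] [Algebra (ZMod 2) K]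

/-- the affine map `Tm` as a linear map on `K × F₂` -/
def TL (u : K) (h : ℕ) (a : K) : End (ZMod 2) (K × ZMod 2) :=
  AddMonoidHom.toZModLinearMap 2
    { toFun := fun w => ((w.1 ^ 2 + a⁻¹ * (w.1 ^ 2 + w.1)) ^ (2 ^ h) +
        algebraMap (ZMod 2) K w.2 * ((a⁻¹ * u ^ 2) ^ (2 ^ h) + cs u (1 + h)), w.2)
      map_zero' := by
        simp
      map_add' := by
        intro w w'
        apply Prod.ext
        · simp only [Prod.fst_add, Prod.snd_add]
          have e : ((w.1 + w'.1) ^ 2 + a⁻¹ * ((w.1 + w'.1) ^ 2 + (w.1 + w'.1))) =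
              (w.1 ^ 2 + a⁻¹ * (w.1 ^ 2 + w.1)) + (w'.1 ^ 2 + a⁻¹ * (w'.1 ^ 2 + w'.1)) := by
            rw [add_pow_char]; ring
          rw [e, add_pow_char_pow, map_add]
          ring
        · rfl }

theorem TL_apply (u : K) (h : ℕ) (a : K) (w : K × ZMod 2) :
    TL u h a w = ((w.1 ^ 2 + a⁻¹ * (w.1 ^ 2 + w.1)) ^ (2 ^ h) +
        algebraMap (ZMod 2) K w.2 * ((a⁻¹ * u ^ 2) ^ (2 ^ h) + cs u (1 + h)), w.2) := rfl

theorem TL_one (u : K) (h : ℕ) (a t : K) : TL u h a (t, 1) = (Tm u h a t, 1) := by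
  rw [TL_apply]
  apply Prod.ext
  · simp only [Tm, map_one, one_mul]
    rw [← add_assoc, ← add_pow_char_pow]
    congr 2
    ring
  · rfl

theorem TL_pow (u : K) (h : ℕ) (a t : K) (n : ℕ) :
    (TL u h a ^ n) (t, 1) = ((Tm u h a)^[n] t, 1) := by
  induction n generalizing t with
  | zero => rfl
  | succ n ih => rw [pow_succ, Module.End.mul_apply, TL_one, ih, Function.iterate_succ_apply]

theorem finrank_eq {j : ℕ} (hK : Nat.card K = 2 ^ (2 ^ j)) :
    finrank (ZMod 2) (K × ZMod 2) = 2 ^ j + 1 := by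
  have : finrank (ZMod 2) K = 2 ^ j := by
    have h1 := Module.natCard_eq_pow_finrank (K := ZMod 2) (V := K)
    rw [hK, Nat.card_zmod] at h1
    exact (Nat.pow_right_injective (le_refl 2) h1).symm
  rw [Module.finrank_prod, this, Module.finrank_self]

theorem cyc {j : ℕ} (hj : 2 ≤ j) (hK : Nat.card K = 2 ^ (2 ^ j)) {u : K}
    (hu : cs u (2 ^ j) = 1) {p : K × K} (hp : Pm (2 ^ (j - 1)) p) {n : ℕ} (hn : 0 < n)
    (hF : (Fm u)^[n] p = p) : 2 ^ (j + 1) ∣ n := by
  obtain ⟨i, rfl⟩ : ∃ i, j = i + 1 := ⟨j - 1, by omega⟩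
  rw [show i + 1 - 1 = i by omega] at hp
  have h1 := Em_iter (u := u) hp n
  rw [hF, Dm_iter] at h1
  have h2 := congrArg Prod.fst h1
  have h3 := congrArg Prod.snd h1
  simp only at h2 h3
  -- full orbit
  have h4 : 2 ^ (i + 1) ∣ (1 + 2 ^ i) * n := by
    apply full_orbit (by omega) (a := p.1) _ hp.2 h2
    rw [show i + 1 - 1 = i by omega]
    exact hp.1
  have hodd : ¬ 2 ∣ (1 + 2 ^ i) := by
    obtain ⟨k, rfl⟩ : ∃ k, i = k + 1 := ⟨i - 1, by omega⟩
    rw [pow_succ]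
    omega
  have hcop : Nat.Coprime (2 ^ (i + 1)) (1 + 2 ^ i) :=
    Nat.Coprime.pow_left _ ((Nat.Prime.coprime_iff_not_dvd Nat.prime_two).mpr hodd)
  have h5 : 2 ^ (i + 1) ∣ n := hcop.dvd_of_dvd_mul_left h4
  obtain ⟨m, rfl⟩ := h5
  by_cases hm : 2 ∣ m
  · rw [pow_succ 2 (i + 1)]
    exact Nat.mul_dvd_mul_left _ hm
  exfalso
  -- the partial trace
  have hfrob : ∀ x : K, x ^ (2 ^ (2 ^ (i + 1))) = x := by
    intro x
    rw [← hK]
    have := Fintype.ofFinite K
    rw [Nat.card_eq_fintype_card]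
    exact FiniteField.pow_card x
  have hfrobm : ∀ (x : K) (l : ℕ), x ^ (2 ^ (2 ^ (i + 1) * l)) = x := by
    intro x l
    induction l with
    | zero => simp
    | succ l ih => rw [mul_add, pow_add, pow_mul, ih, mul_one, hfrob]
  have hcs : ∀ l : ℕ, cs u (2 ^ (i + 1) * l) = (l : K) := by
    intro l
    induction l with
    | zero => simp [cs]
    | succ l ih =>
      rw [mul_add, mul_one, cs, Finset.sum_range_add, ← cs, ih]
      have : ∑ x ∈ Finset.range (2 ^ (i + 1)), u ^ 2 ^ (2 ^ (i + 1) * l + x + 1) =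
          cs u (2 ^ (i + 1)) := by
        rw [cs]
        apply Finset.sum_congr rfl
        intro x _
        rw [add_assoc, pow_add 2 (2 ^ (i + 1) * l), pow_mul, hfrobm]
      rw [this, hu]
      push_cast
      ring
  have e1 : (1 + 2 ^ i) * (2 ^ (i + 1) * m) = 2 ^ (i + 1) * ((1 + 2 ^ i) * m) := by ring
  rw [e1, hfrobm, hcs] at h3
  have hoddm : (((1 + 2 ^ i) * m : ℕ) : K) = 1 := by
    have : Odd ((1 + 2 ^ i) * m) := by
      rw [Nat.odd_mul]
      constructor
      · rw [← Nat.not_even_iff_odd, even_iff_two_dvd]; exact hodd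
      · rw [← Nat.not_even_iff_odd, even_iff_two_dvd]; exact hm
    obtain ⟨k, hk⟩ := this
    have h2 : (2 : K) = 0 := CharTwo.two_eq_zero
    rw [hk]
    push_cast
    linear_combination (k : K) * h2
  rw [hoddm] at h3
  have : FiniteDimensional (ZMod 2) K := Module.Finite.of_finite
  have hm0 : 0 < m := Nat.pos_of_ne_zero (by rintro rfl; exact hm (dvd_zero 2))
  have ha0 : p.1 ≠ 0 := hp.ne_zero
  have ha1 : p.1 + 1 ≠ 0 := by
    intro h
    apply hp.2
    have := CharTwo.add_eq_zero.mp h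
    exact this
  refine no_half_period hm0 (finrank_eq hK) (TL u (2 ^ i) p.1) (p.2, 1) (1, 0)
    ((p.1 + 1)⁻¹, 0) ?_ ?_ ?_ ?_ ?_
  · intro h
    have := congrArg Prod.fst h
    exact inv_ne_zero ha1 this
  · rw [TL_apply]
    apply Prod.ext
    · simp only [map_zero, zero_mul, add_zero]
      have : ((p.1 + 1)⁻¹ ^ 2 + p.1⁻¹ * ((p.1 + 1)⁻¹ ^ 2 + (p.1 + 1)⁻¹)) = 0 := by
        field_simp
        have h2 : (2 : K) = 0 := CharTwo.two_eq_zero
        linear_combination (p.1 + 1) * h2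
      rw [this, zero_pow (by positivity)]
      rfl
    · rfl
  · intro h
    exact one_ne_zero (congrArg Prod.fst h)
  · rw [TL_apply]
    apply Prod.ext
    · have h2 : (1 : K) + 1 = 0 := CharTwo.add_self_eq_zero 1
      simp [h2]
    · rfl
  · rw [TL_pow, ← h3]
    rfl

theorem exists_u {j : ℕ} (hK : Nat.card K = 2 ^ (2 ^ j)) : ∃ u : K, cs u (2 ^ j) = 1 := by
  have : FiniteDimensional (ZMod 2) K := Module.Finite.of_finite
  have hfr : finrank (ZMod 2) K = 2 ^ j := by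
    have h1 := Module.natCard_eq_pow_finrank (K := ZMod 2) (V := K)
    rw [hK, Nat.card_zmod] at h1
    exact (Nat.pow_right_injective (le_refl 2) h1).symm
  obtain ⟨b, hb⟩ := Algebra.trace_surjective (ZMod 2) K 1
  have h1 := FiniteField.algebraMap_trace_eq_sum_pow (ZMod 2) K b
  rw [hb, map_one, hfr, Nat.card_zmod] at h1
  refine ⟨sr b, ?_⟩
  rw [h1, cs]
  apply Finset.sum_congr rfl
  intro l _
  rw [pow_succ', pow_mul, sr_sq]

theorem exists_a {j : ℕ} (hj : 1 ≤ j) (hK : Nat.card K = 2 ^ (2 ^ j)) :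
    ∃ a : K, a * a ^ (2 ^ (2 ^ (j - 1))) = 1 ∧ a ≠ 1 := by
  classical
  have := Fintype.ofFinite K
  obtain ⟨g, hg⟩ := IsCyclic.exists_generator (α := Kˣ)
  have hcard : Nat.card Kˣ = 2 ^ (2 ^ j) - 1 := by
    rw [Nat.card_eq_fintype_card, Fintype.card_units, ← Nat.card_eq_fintype_card, hK]
  have hord : orderOf g = 2 ^ (2 ^ j) - 1 := by
    rw [orderOf_eq_card_of_forall_mem_zpowers hg, hcard]
  set h := 2 ^ (j - 1) with hh
  have hj2 : 2 ^ j = 2 * h := by
    rw [hh, ← pow_succ', show j - 1 + 1 = j by omega]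
  have hpos : 1 ≤ h := Nat.one_le_two_pow
  have h2h : 2 ≤ 2 ^ h := by
    calc 2 = 2 ^ 1 := by norm_num
      _ ≤ 2 ^ h := Nat.pow_le_pow_right (by norm_num) hpos
  have hfac : (2 ^ h - 1) * (1 + 2 ^ h) = 2 ^ (2 ^ j) - 1 := by
    rw [hj2, two_mul, pow_add]
    obtain ⟨k, hk⟩ := Nat.exists_eq_add_of_le h2h
    rw [hk]
    have : (2 + k) * (2 + k) = (2 + k - 1) * (1 + (2 + k)) + 1 := by
      rw [show 2 + k - 1 = 1 + k by omega]; ring
    omega
  refine ⟨((g ^ (2 ^ h - 1) : Kˣ) : K), ?_, ?_⟩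
  · have h1 : (g ^ (2 ^ h - 1)) * (g ^ (2 ^ h - 1)) ^ (2 ^ h) = 1 := by
      rw [← pow_succ', ← pow_mul, add_comm (2 ^ h) 1, hfac, ← hord, pow_orderOf_eq_one]
    have h2 := congrArg Units.val h1
    push_cast at h2
    push_cast
    exact h2
  · intro h1
    have h2 : g ^ (2 ^ h - 1) = 1 := Units.ext h1
    have h3 := orderOf_dvd_of_pow_eq_one h2
    rw [hord] at h3
    have h4 := Nat.le_of_dvd (by omega) h3
    have h5 : 2 ^ h < 2 ^ (2 ^ j) := by
      apply Nat.pow_lt_pow_right (by norm_num)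
      omega
    omega

/-- abstract form: any group containing a faithful copy of the configuration -/
theorem DD_abstract {G : Type*} [Group G] {j : ℕ} (hj : 2 ≤ j) (hK : Nat.card K = 2 ^ (2 ^ j))
    {u : K} (hu : cs u (2 ^ j) = 1) (Y : G) (X : K × K → G)
    (hinj : ∀ p q, Pm (2 ^ (j - 1)) p → Pm (2 ^ (j - 1)) q → X p = X q → p = q)
    (hrel : ∀ p, Pm (2 ^ (j - 1)) p → Y * X p * X (Fm u p) = X p * Y) :
    DD G (2 ^ (j + 1)) := by
  obtain ⟨a, ha, ha1⟩ := exists_a (K := K) (by omega : 1 ≤ j) hK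
  refine DD_of_family Y X (Fm u) (Pm (2 ^ (j - 1))) hinj ?_ (a, 0) ⟨ha, ha1⟩ ?_
  · intro s hs
    refine ⟨Fm_Pm hs, ?_⟩
    rw [cm_apply, mul_assoc, ← hrel s hs]
    group
  · intro s hs n hn hF
    exact cyc hj hK hu hs hn hF

/-- the element `x = (a, t)` -/
def XL (p : K × K) : (K × ZMod 2) →ₗ[ZMod 2] (K × ZMod 2) :=
  AddMonoidHom.toZModLinearMap 2
    { toFun := fun w => (p.1 * w.1 + algebraMap (ZMod 2) K w.2 * ((1 + p.1) * p.2), w.2)
      map_zero' := by simp
      map_add' := by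
        intro w w'
        apply Prod.ext
        · simp only [Prod.fst_add, Prod.snd_add, map_add]
          ring
        · rfl }

theorem XL_apply (p : K × K) (w : K × ZMod 2) :
    XL p w = (p.1 * w.1 + algebraMap (ZMod 2) K w.2 * ((1 + p.1) * p.2), w.2) := rfl

theorem XL_mul (p : K × K) (hp : p.1 ≠ 0) (w : K × ZMod 2) : XL p (XL (p.1⁻¹, p.2) w) = w := by
  rw [XL_apply, XL_apply]
  apply Prod.ext
  · simp only
    have h2 : (2 : K) = 0 := CharTwo.two_eq_zero
    field_simp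
    linear_combination (algebraMap (ZMod 2) K w.2 * p.2 * (1 + p.1)) * h2
  · rfl

noncomputable def XE (p : K × K) : (K × ZMod 2) ≃ₗ[ZMod 2] (K × ZMod 2) :=
  open Classical in
  if hp : p.1 = 0 then 1 else
    { XL p with
      invFun := XL (p.1⁻¹, p.2)
      left_inv := fun w => by
        have := XL_mul (p.1⁻¹, p.2) (inv_ne_zero hp) w
        rwa [inv_inv] at this
      right_inv := fun w => XL_mul p hp w }

theorem XE_apply (p : K × K) (hp : p.1 ≠ 0) (w : K × ZMod 2) :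
    XE p w = (p.1 * w.1 + algebraMap (ZMod 2) K w.2 * ((1 + p.1) * p.2), w.2) := by
  rw [XE, dif_neg hp]
  rfl

/-- the element `y : v ↦ (v+u)^2` -/
noncomputable def YE (u : K) : (K × ZMod 2) ≃ₗ[ZMod 2] (K × ZMod 2) :=
  { AddMonoidHom.toZModLinearMap 2
    { toFun := fun w : K × ZMod 2 => (w.1 ^ 2 + algebraMap (ZMod 2) K w.2 * u ^ 2, w.2)
      map_zero' := by simp
      map_add' := by
        intro w w'
        apply Prod.ext
        · simp only [Prod.fst_add, Prod.snd_add, map_add]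
          rw [add_pow_char]
          ring
        · rfl } with
    invFun := fun w => (sr w.1 + algebraMap (ZMod 2) K w.2 * u, w.2)
    left_inv := by
      intro w
      have hs : ∀ c : ZMod 2, c ^ 2 = c := by decide
      apply Prod.ext
      · apply sq_inj
        change (sr (w.1 ^ 2 + algebraMap (ZMod 2) K w.2 * u ^ 2) +
          algebraMap (ZMod 2) K w.2 * u) ^ 2 = w.1 ^ 2
        rw [add_pow_char, sr_sq, mul_pow, ← map_pow, hs, add_assoc, CharTwo.add_self_eq_zero,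
          add_zero]
      · rfl
    right_inv := by
      intro w
      have hs : ∀ c : ZMod 2, c ^ 2 = c := by decide
      apply Prod.ext
      · change (sr w.1 + algebraMap (ZMod 2) K w.2 * u) ^ 2 +
          algebraMap (ZMod 2) K w.2 * u ^ 2 = w.1
        rw [add_pow_char, sr_sq, mul_pow, ← map_pow, hs, add_assoc, CharTwo.add_self_eq_zero,
          add_zero]
      · rfl }

theorem YE_apply (u : K) (w : K × ZMod 2) :
    YE u w = (w.1 ^ 2 + algebraMap (ZMod 2) K w.2 * u ^ 2, w.2) := rfl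

theorem rel (u : K) {h : ℕ} {p : K × K} (hp : Pm h p) :
    YE u * XE p * XE (Fm u p) = XE p * YE u := by
  have hp0 := hp.ne_zero
  have hF0 := (Fm_Pm (u := u) hp).ne_zero
  apply LinearEquiv.ext
  intro w
  change YE u (XE p (XE (Fm u p) w)) = XE p (YE u w)
  have hs : ∀ c : ZMod 2, c ^ 2 = c := by decide
  have hs' : (algebraMap (ZMod 2) K w.2) ^ 2 = algebraMap (ZMod 2) K w.2 := by
    rw [← map_pow, hs]
  rw [XE_apply _ hF0, XE_apply _ hp0, YE_apply, YE_apply, XE_apply _ hp0]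
  apply Prod.ext
  · simp only
    have e1 : (Fm u p).1 ^ 2 = p.1⁻¹ := by simp only [Fm]; rw [sr_sq]
    have e2 := Fm_snd_sq u p
    have e3 : (p.1 * ((Fm u p).1 * w.1 + algebraMap (ZMod 2) K w.2 *
        ((1 + (Fm u p).1) * (Fm u p).2)) + algebraMap (ZMod 2) K w.2 * ((1 + p.1) * p.2)) ^ 2
        = p.1 ^ 2 * ((Fm u p).1 ^ 2 * w.1 ^ 2 + algebraMap (ZMod 2) K w.2 *
        ((1 + (Fm u p).1 ^ 2) * (Fm u p).2 ^ 2)) +
        algebraMap (ZMod 2) K w.2 * ((1 + p.1 ^ 2) * p.2 ^ 2) := by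
      simp only [add_pow_char, mul_pow, hs', one_pow]
    rw [e3, e1, e2]
    have h2 : (2 : K) = 0 := CharTwo.two_eq_zero
    field_simp
    linear_combination (algebraMap (ZMod 2) K w.2 * (p.1 ^ 2 * p.2 ^ 2 + p.1 * p.2 ^ 2 + u ^ 2
      + p.2 ^ 2)) * h2
  · rfl

end main

end EG.H99
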